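import Pool.Agent.H38.PWS.Stmts

set_option autoImplicit false

namespace Pool.PWS

open ArithmeticFunction Finset Pool.MKP

theorem cnt_two_le {m n : ℕ} {e : ℕ × ℕ} (he : e ∈ Amb m n) : 2 ≤ e.2 := by
  unfold Amb at he
  simp only [mem_biUnion, mem_image, mem_union] at he
  obtain ⟨i, -, z, hz, rfl⟩ := he
  rcases hz with hz | hz
  · exact (Nat.prime_of_mem_primeFactors hz).two_le
  · exact (Nat.prime_of_mem_primeFactors hz).two_le

theorem CNT (h1 : TREStmt) (h2 : WLBStmt) (h3 : AMBStmt) : CNTStmt := by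
  classical
  intro m ε hm hε
  obtain ⟨δ, c, hδ, hc, hW⟩ := h2 m ε hm hε
  refine ⟨1 / c, by positivity, ?_⟩
  intro N G hN
  have hA : ∀ n ∈ Cls m N G, (1 ≤ n ∧ n ≤ N) ∧ G ⊆ Amb m n ∧
      ∀ p ∈ n.primeFactors, Rch m n G (0, p) := by
    intro n hn
    unfold Cls at hn
    rw [mem_filter, mem_Icc] at hn
    exact hn
  set E : ℕ → Finset (ℕ × ℕ) := fun n => (Amb m n).filter fun e => Rch m n G e with hE
  have hEm : ∀ n e, e ∈ E n ↔ e ∈ Amb m n ∧ Rch m n G e := fun n e => mem_filter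
  have key := h1 (Cls m N G) val E (fun e => (e.2 : ℝ) ^ (-δ)) (by
    intro n _ e he
    have h4 : (2:ℝ) ≤ (e.2 : ℝ) := by exact_mod_cast cnt_two_le ((hEm n e).mp he).1
    exact ⟨by positivity, Real.rpow_lt_one_of_one_lt_of_neg (by linarith) (by linarith)⟩) (by
    intro S n hn hS
    by_cases ha : ∃ e ∈ G, e ∉ S
    · obtain ⟨e, heG, heS⟩ := ha
      refine Or.inr ⟨e, heS, fun n' hn' _ _ => ?_⟩
      exact (hEm n' e).mpr ⟨(hA n' hn').2.1 heG, Rch.base heG⟩
    push Not at ha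
    by_cases hb : ∃ e ∈ S, ∃ e' ∈ out m e (val n e), e' ∉ S
    · obtain ⟨e, heS, e', he', heS'⟩ := hb
      refine Or.inr ⟨e', heS', fun n' hn' hS' hag => ?_⟩
      have h5 := (hEm n' e).mp (hS' heS)
      rw [← hag e heS] at he'
      exact (hEm n' e').mpr ⟨h3 m n' hm (hA n' hn').1.1 e h5.1 e' he', Rch.step h5.2 he'⟩
    push Not at hb
    left
    intro n' hn' hS' hag
    have hr : ∀ e, Rch m n G e → e ∈ S := by
      intro e he
      induction he with
      | base h => exact ha _ h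
      | step _ h ih => exact hb _ ih _ h
    have hr' : ∀ e, Rch m n' G e → e ∈ S := by
      intro e he
      induction he with
      | base h => exact ha _ h
      | step _ h ih =>
        rw [hag _ ih] at h
        exact hb _ ih _ h
    have h0 : n ≠ 0 := by have := (hA n hn).1.1; omega
    have h0' : n' ≠ 0 := by have := (hA n' hn').1.1; omega
    refine Nat.eq_of_factorization_eq h0' h0 fun p => ?_
    by_cases hp : p ∈ n.primeFactors
    · have := hag (0, p) (hr _ ((hA n hn).2.2 p hp))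
      unfold val at this
      simpa [it_zero] using this
    by_cases hp' : p ∈ n'.primeFactors
    · have := hag (0, p) (hr' _ ((hA n' hn').2.2 p hp'))
      unfold val at this
      simpa [it_zero] using this
    rw [Finsupp.notMem_support_iff.mp (by rwa [Nat.support_factorization]),
      Finsupp.notMem_support_iff.mp (by rwa [Nat.support_factorization])])
  have hN0 : (0:ℝ) < N := by exact_mod_cast hN
  have hlow : ((Cls m N G).card : ℝ) * (c * (N:ℝ) ^ (-ε)) ≤
      ∑ n ∈ Cls m N G, ∏ e ∈ E n, ((1 - (e.2 : ℝ) ^ (-δ)) * ((e.2 : ℝ) ^ (-δ)) ^ val n e) := by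
    rw [← nsmul_eq_mul]
    refine card_nsmul_le_sum _ _ _ fun n hn => ?_
    exact hW N n (hA n hn).1.1 (hA n hn).1.2 (E n) (filter_subset _ _)
  have h6 : ((Cls m N G).card : ℝ) * (c * (N:ℝ) ^ (-ε)) ≤ 1 := hlow.trans key
  rw [Real.rpow_neg hN0.le] at h6
  have h7 : (0:ℝ) < (N:ℝ) ^ ε := Real.rpow_pos_of_pos hN0 _
  have h8 : ((Cls m N G).card : ℝ) * (c * ((N:ℝ) ^ ε)⁻¹) = ((Cls m N G).card : ℝ) * c / (N:ℝ) ^ ε := by
    rw [div_eq_mul_inv]; ring
  rw [h8, div_le_one h7] at h6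
  rw [one_div, inv_mul_eq_div, le_div_iff₀ hc]
  exact h6

end Pool.PWS
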